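import Mathlib
import Pool.Agent.R166.Solid.Main
import Pool.Agent.Run7.h414.HC.Cor

set_option autoImplicit false

/-!
# Coverings of the polar body of a gauge invariant body with interchangeable blocks
-/

namespace Pool.Agent.Run7.h767.Blk

open Set Topology Module
open scoped InnerProductSpace
open Pool.Agent.TH438.Hull Pool.Agent.R166.Solid
open Pool.Agent.R753 (Sol)
open Pool.Agent.Run7.h414.HC (Bal)

/-- Profile sets the nonnegative part of which is symmetric are balanced. -/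
theorem bal_of_swap_nonneg {ι R : Type} [DecidableEq ι] {β : ι → R} {M : Set (ι → ℝ)}
    (hMc : Convex ℝ M) (hsol : Sol M)
    (hsym : ∀ x ∈ M, (∀ i, 0 ≤ x i) → ∀ i j, β i = β j → x ∘ Equiv.swap i j ∈ M) : Bal β M := by
  intro η hη
  refine ⟨η / 2, by positivity, ?_⟩
  intro x hx hx0 i j hij hne hi hj
  have hd : η / 2 ≤ x i - x j := by linarith
  have hd0 : 0 < x i - x j := by linarith
  set θ : ℝ := (η / 2) / (x i - x j) with hθ
  have hθ0 : 0 ≤ θ := by positivity
  have hθ1 : θ ≤ 1 := by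
    rw [hθ, div_le_one hd0]
    exact hd
  have hθd : θ * (x i - x j) = η / 2 := by
    rw [hθ, div_mul_cancel₀ _ hd0.ne']
  have hy : (1 - θ) • x + θ • (x ∘ Equiv.swap i j) ∈ M :=
    hMc hx (hsym x hx hx0 i j hij) (by linarith) hθ0 (by ring)
  refine hsol _ hy _ fun a => ?_
  rw [Set.mem_uIcc]
  left
  simp only [Pi.add_apply, Pi.sub_apply, Pi.smul_apply, smul_eq_mul, Function.comp_apply]
  by_cases hai : a = i
  · subst hai
    rw [Pi.single_eq_same, Pi.single_eq_of_ne hne, Equiv.swap_apply_left]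
    constructor
    · linarith
    · nlinarith
  · by_cases haj : a = j
    · subst haj
      rw [Pi.single_eq_same, Pi.single_eq_of_ne hai, Equiv.swap_apply_right]
      constructor
      · have := hx0 a
        linarith
      · nlinarith
    · rw [Pi.single_eq_of_ne hai, Pi.single_eq_of_ne haj, Equiv.swap_apply_of_ne_of_ne hai haj]
      constructor
      · have := hx0 a
        linarith
      · linarith

variable {ι : Type} [Fintype ι] [DecidableEq ι] {E : ι → Type} [∀ j, NormedAddCommGroup (E j)]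
  [∀ j, InnerProductSpace ℝ (E j)] [∀ j, FiniteDimensional ℝ (E j)] [∀ j, Nontrivial (E j)]

omit [DecidableEq ι] in
/-- The polar body is invariant under the permutations which preserve the body. -/
theorem pol_perm {L : ∀ j, Set (E j)} (hL : ∀ j, Convex ℝ (L j)) (hLc : ∀ j, IsCompact (L j))
    (hL0 : ∀ j, (0 : E j) ∈ interior (L j)) {K : Set (PiLp 2 E)} (σ : Equiv.Perm ι)
    (hinv : ∀ x ∈ K, ∀ y : PiLp 2 E,
      (∀ a, gauge (L a) (y a) = gauge (L (σ.symm a)) (x (σ.symm a))) → y ∈ K)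
    {v v' : PiLp 2 E} (hv : v ∈ Pol K 0)
    (hle : ∀ a, gauge (Pol (L a) 0) (v' a) = gauge (Pol (L (σ a)) 0) (v (σ a))) :
    v' ∈ Pol K 0 := by
  intro x hx
  choose z hz1 hz2 using fun j => exists_attained (hL j) (hLc j) (hL0 j) (v j)
  have hx' : (WithLp.toLp 2 fun b => gauge (L (σ.symm b)) (x (σ.symm b)) • z b : PiLp 2 E) ∈ K := by
    refine hinv x hx _ fun j => ?_
    show gauge (L j) (gauge (L (σ.symm j)) (x (σ.symm j)) • z j) = _
    rw [gauge_smul_of_nonneg (gauge_nonneg _), smul_eq_mul, hz1, mul_one]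
  have h1 := hv _ hx'
  rw [sub_zero, PiLp.inner_apply] at h1 ⊢
  have h2 : ∑ b, ⟪v b, (WithLp.toLp 2 fun b => gauge (L (σ.symm b)) (x (σ.symm b)) • z b :
      PiLp 2 E) b⟫_ℝ
      = ∑ b, gauge (L (σ.symm b)) (x (σ.symm b)) * gauge (Pol (L b) 0) (v b) := by
    refine Finset.sum_congr rfl fun b _ => ?_
    show ⟪v b, gauge (L (σ.symm b)) (x (σ.symm b)) • z b⟫_ℝ = _
    rw [real_inner_smul_right, hz2]
  have h3 : ∑ b, gauge (L (σ.symm b)) (x (σ.symm b)) * gauge (Pol (L b) 0) (v b)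
      = ∑ a, gauge (L a) (x a) * gauge (Pol (L (σ a)) 0) (v (σ a)) := by
    rw [← Equiv.sum_comp σ]
    refine Finset.sum_congr rfl fun a _ => ?_
    rw [Equiv.symm_apply_apply]
  rw [h2, h3] at h1
  refine le_trans (Finset.sum_le_sum fun a _ => ?_) h1
  rw [← hle, mul_comm]
  exact inner_le_gauge (hL a) (hLc a) (hL0 a) _ _

/-- Sums with interchangeable blocks. -/
theorem block_pol {R : Type} [Fintype R] [DecidableEq R] {L : ∀ j, Set (E j)}
    (hL : ∀ j, Convex ℝ (L j)) (hLc : ∀ j, IsCompact (L j))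
    (hL0 : ∀ j, (0 : E j) ∈ interior (L j)) {K : Set (PiLp 2 E)} (hKc : IsCompact K)
    (hK0 : (0 : PiLp 2 E) ∈ interior K) (β : ι → R) (hβ : Function.Surjective β)
    (hinv : ∀ σ : Equiv.Perm ι, (∀ a, β (σ a) = β a) → ∀ x ∈ K, ∀ y : PiLp 2 E,
      (∀ a, gauge (L a) (y a) = gauge (L (σ a)) (x (σ a))) → y ∈ K)
    (N : ι → ℕ) (hN : ∀ j, 2 ≤ N j)
    (hsum : ∑ b, ∏ j ∈ Finset.univ.filter (fun j => β j = b), (1 : ℝ) / N j ≤ 1)
    (hcov : ∀ j, ∃ T : Finset (E j), T.card ≤ N j ∧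
      Pol (L j) 0 ⊆ ⋃ t ∈ T, (fun x => t + x) '' interior (Pol (L j) 0)) :
    ∃ T : Finset (PiLp 2 E), T.card ≤ ∏ j, N j ∧
      Pol K 0 ⊆ ⋃ t ∈ T, (fun x => t + x) '' interior (Pol K 0) := by
  have hinv1 : ∀ x ∈ K, ∀ y : PiLp 2 E, (∀ j, gauge (L j) (y j) = gauge (L j) (x j)) → y ∈ K :=
    fun x hx y hy => hinv 1 (fun _ => rfl) x hx y hy
  obtain ⟨M, hM1, hM2, hM3, hM4, hM5⟩ := exists_M hL hLc hL0 hKc hK0 hinv1
  have hP0 : ∀ j, (0 : E j) ∈ interior (Pol (L j) 0) := fun j => Pol.zero_mem_interior (hLc j)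
  have hPc : ∀ j, IsCompact (Pol (L j) 0) := fun j => Pol.isCompact (hL0 j)
  have hz : ∀ j, ∃ z : E j, gauge (Pol (L j) 0) z = 1 := fun j => by
    obtain ⟨x, hx⟩ := exists_ne (0 : E j)
    exact ⟨_, gauge_scaled (hPc j) (hP0 j) hx⟩
  choose z hz using hz
  have hgz : ∀ (t : ι → ℝ), (∀ j, 0 ≤ t j) →
      (fun j => gauge (Pol (L j) 0) (t j • z j)) = t := fun t ht => by
    funext j
    rw [gauge_smul_of_nonneg (ht j), hz, smul_eq_mul, mul_one]
  have hbal : Bal β M := by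
    refine bal_of_swap_nonneg hM1 hM4 fun t ht ht0 i j hij => ?_
    have h1 : (fun j => t j • z j) ∈ {x : ∀ j, E j | (WithLp.toLp 2 x : PiLp 2 E) ∈ Pol K 0} := by
      rw [hM5]
      show (fun j => gauge (Pol (L j) 0) (t j • z j)) ∈ M
      rw [hgz t ht0]
      exact ht
    have h2 : (fun a => t (Equiv.swap i j a) • z a) ∈
        {x : ∀ j, E j | (WithLp.toLp 2 x : PiLp 2 E) ∈ Pol K 0} := by
      refine pol_perm hL hLc hL0 (Equiv.swap i j) ?_ h1 fun a => ?_
      · refine hinv _ fun a => ?_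
        rw [Equiv.symm_swap]
        by_cases hai : a = i
        · rw [hai, Equiv.swap_apply_left]; exact hij.symm
        · by_cases haj : a = j
          · rw [haj, Equiv.swap_apply_right]; exact hij
          · rw [Equiv.swap_apply_of_ne_of_ne hai haj]
      · show gauge (Pol (L a) 0) (t (Equiv.swap i j a) • z a)
          = gauge (Pol (L (Equiv.swap i j a)) 0) (t (Equiv.swap i j a) • z (Equiv.swap i j a))
        rw [gauge_smul_of_nonneg (ht0 _), gauge_smul_of_nonneg (ht0 _), hz, hz]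
    rw [hM5] at h2
    have h3 : (fun a => gauge (Pol (L a) 0) (t (Equiv.swap i j a) • z a)) ∈ M := h2
    rw [hgz (fun a => t (Equiv.swap i j a)) fun a => ht0 _] at h3
    exact h3
  obtain ⟨-, -, -, T, hT, h1⟩ := Pool.Agent.Run7.h414.HC.balanced (fun j => Pol (L j) 0)
    (fun j => Pol.convex _ _) hPc hP0 β hβ N hN hsum hcov M hM1 hM2 hM3 hM4 hbal _ hM5
    (bounded_pre (Pol.isCompact hK0))
  obtain ⟨S, hS, h2⟩ := cov_transport T h1
  exact ⟨S, hS.trans hT, h2⟩

end Pool.Agent.Run7.h767.Blk
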